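import Mathlib
import Pool.Agent.Helper859.Br.A2

/-!
# The area of the preimage of a set under `ζ ↦ ζ ^ 2 + a`
-/

set_option autoImplicit false
open MeasureTheory Metric Set Complex

namespace Pool.Agent.X151.MA

theorem real_unit_ball : (volume : Measure ℂ).real (ball 0 1) = Real.pi := by
  rw [Measure.real, Complex.volume_ball]
  simp

/-- The second moment of the disc. -/
theorem disc_moment {R : ℝ} (hR : 0 ≤ R) :
    ∫ z in ball (0 : ℂ) R, (R ^ 2 - ‖z‖ ^ 2) = Real.pi * R ^ 4 / 2 := by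
  have h1 : ∫ z in ball (0 : ℂ) R, (R ^ 2 - ‖z‖ ^ 2) =
      ∫ z : ℂ, (fun y : ℝ => if y < R then R ^ 2 - y ^ 2 else 0) ‖z‖ := by
    rw [← integral_indicator measurableSet_ball]
    apply integral_congr_ae
    refine Filter.Eventually.of_forall fun z => ?_
    simp only [indicator, mem_ball_zero_iff]
  rw [h1, integral_fun_norm_addHaar volume (fun y : ℝ => if y < R then R ^ 2 - y ^ 2 else 0),
    Complex.finrank_real_complex, real_unit_ball]
  have h2 : ∫ y in Ioi (0 : ℝ), y ^ (2 - 1) • (if y < R then R ^ 2 - y ^ 2 else 0) =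
      ∫ y in (0 : ℝ)..R, y * (R ^ 2 - y ^ 2) := by
    rw [intervalIntegral.integral_of_le hR, ← integral_indicator measurableSet_Ioi,
      ← integral_indicator measurableSet_Ioc]
    apply integral_congr_ae
    have h3 : ∀ᵐ y : ℝ, y ≠ R := by
      rw [ae_iff]
      simp
    filter_upwards [h3] with y hy
    simp only [indicator, mem_Ioi, mem_Ioc]
    by_cases h0 : 0 < y
    · by_cases h4 : y < R
      · have h6 : 0 < y ∧ y ≤ R := ⟨h0, h4.le⟩
        rw [if_pos h0, if_pos h4, if_pos h6]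
        simp
      · have h5 : ¬ (0 < y ∧ y ≤ R) := fun h => h4 (lt_of_le_of_ne h.2 hy)
        rw [if_pos h0, if_neg h4, if_neg h5]
        simp
    · rw [if_neg h0, if_neg (fun h => h0 h.1)]
  rw [h2]
  have h3 : ∫ y in (0 : ℝ)..R, y * (R ^ 2 - y ^ 2) = R ^ 4 / 4 := by
    have h4 : ∀ y ∈ uIcc 0 R, HasDerivAt (fun y : ℝ => R ^ 2 * y ^ 2 / 2 - y ^ 4 / 4)
        (y * (R ^ 2 - y ^ 2)) y := by
      intro y _
      have h5 := (((hasDerivAt_pow 2 y).const_mul (R ^ 2)).div_const 2).sub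
        ((hasDerivAt_pow 4 y).div_const 4)
      refine h5.congr_deriv ?_
      norm_num
      ring
    rw [intervalIntegral.integral_eq_sub_of_hasDerivAt h4
      (by apply Continuous.intervalIntegrable; fun_prop)]
    ring
  rw [h3]
  simp
  ring

/-- A set of given area has the least second moment if it is a disc. -/
theorem moment_ge {S : Set ℂ} (hS : MeasurableSet S) (hSb : Bornology.IsBounded S) :
    (volume S).toReal ^ 2 / (2 * Real.pi) ≤ ∫ z in S, ‖z‖ ^ 2 := by
  have hpi := Real.pi_pos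
  set A : ℝ := (volume S).toReal with hA
  have hA0 : 0 ≤ A := ENNReal.toReal_nonneg
  set R : ℝ := √(A / Real.pi) with hR
  have hR0 : 0 ≤ R := Real.sqrt_nonneg _
  have hR2 : R ^ 2 = A / Real.pi := Real.sq_sqrt (by positivity)
  have hint : ∀ T : Set ℂ, Bornology.IsBounded T →
      IntegrableOn (fun z : ℂ => ‖z‖ ^ 2 - R ^ 2) T := by
    intro T hT
    have h1 : IntegrableOn (fun z : ℂ => ‖z‖ ^ 2 - R ^ 2) (closure T) :=
      (by fun_prop : Continuous fun z : ℂ => ‖z‖ ^ 2 - R ^ 2).continuousOn.integrableOn_compact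
        hT.isCompact_closure
    exact h1.mono_set subset_closure
  have hsplit : ∫ z in S, (‖z‖ ^ 2 - R ^ 2) =
      (∫ z in S ∩ ball 0 R, (‖z‖ ^ 2 - R ^ 2)) + ∫ z in S \ ball 0 R, (‖z‖ ^ 2 - R ^ 2) :=
    (integral_inter_add_sdiff measurableSet_ball (hint S hSb)).symm
  have h1 : 0 ≤ ∫ z in S \ ball 0 R, (‖z‖ ^ 2 - R ^ 2) := by
    apply setIntegral_nonneg (hS.diff measurableSet_ball)
    intro z hz
    have h2 : R ≤ ‖z‖ := by
      by_contra h
      exact hz.2 (mem_ball_zero_iff.mpr (not_le.mp h))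
    have h3 : R ^ 2 ≤ ‖z‖ ^ 2 := pow_le_pow_left₀ hR0 h2 2
    linarith
  have h2 : ∫ z in S ∩ ball 0 R, (R ^ 2 - ‖z‖ ^ 2) ≤ ∫ z in ball (0 : ℂ) R, (R ^ 2 - ‖z‖ ^ 2) := by
    apply setIntegral_mono_set
    · have := (hint (ball 0 R) isBounded_ball).neg
      refine this.congr_fun (fun z _ => ?_) measurableSet_ball
      simp
    · filter_upwards [ae_restrict_mem measurableSet_ball] with z hz
      rw [mem_ball_zero_iff] at hz
      have h3 : ‖z‖ ^ 2 ≤ R ^ 2 := pow_le_pow_left₀ (norm_nonneg _) hz.le 2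
      simp only [Pi.zero_apply]
      linarith
    · exact (inter_subset_right).eventuallyLE
  rw [disc_moment hR0] at h2
  have h3 : ∫ z in S ∩ ball 0 R, (‖z‖ ^ 2 - R ^ 2) = -∫ z in S ∩ ball 0 R, (R ^ 2 - ‖z‖ ^ 2) := by
    rw [← integral_neg]
    congr 1
    funext z
    ring
  have h4 : ∫ z in S, (‖z‖ ^ 2 - R ^ 2) = (∫ z in S, ‖z‖ ^ 2) - R ^ 2 * A := by
    rw [integral_sub]
    · rw [setIntegral_const, Measure.real, smul_eq_mul, ← hA]
      ring
    · have h5 : IntegrableOn (fun z : ℂ => ‖z‖ ^ 2) (closure S) :=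
        (by fun_prop : Continuous fun z : ℂ => ‖z‖ ^ 2).continuousOn.integrableOn_compact
          hSb.isCompact_closure
      exact h5.mono_set subset_closure
    · have h5 : IntegrableOn (fun _ : ℂ => R ^ 2) (closure S) :=
        continuousOn_const.integrableOn_compact hSb.isCompact_closure
      exact h5.mono_set subset_closure
  have h5 : Real.pi * R ^ 4 / 2 = A ^ 2 / (2 * Real.pi) := by
    rw [show R ^ 4 = (R ^ 2) ^ 2 by ring, hR2]
    field_simp
  have h6 : R ^ 2 * A = A ^ 2 / Real.pi := by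
    rw [hR2]
    ring
  have h7 : A ^ 2 / Real.pi = A ^ 2 / (2 * Real.pi) + A ^ 2 / (2 * Real.pi) := by
    field_simp
    ring
  linarith

/-- The area of the preimage of a compact set under `ζ ↦ ζ ^ 2 + a`. -/
theorem sq_area {E : Set ℂ} (hE : IsCompact E) (a : ℂ) :
    (volume {ζ : ℂ | ζ ^ 2 + a ∈ E}).toReal ^ 2 ≤ Real.pi * (volume E).toReal := by
  have hpi := Real.pi_pos
  set q : ℂ → ℂ := fun ζ => ζ ^ 2 + a with hq
  have hqc : Continuous q := by rw [hq]; fun_prop
  set S : Set ℂ := {ζ : ℂ | ζ ^ 2 + a ∈ E} with hS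
  have hSm : MeasurableSet S := (hE.isClosed.preimage hqc).measurableSet
  have hSb : Bornology.IsBounded S := by
    obtain ⟨M, hM⟩ := hE.isBounded.exists_norm_le
    rw [isBounded_iff_forall_norm_le]
    refine ⟨1 + M + ‖a‖, fun ζ hζ => ?_⟩
    have h1 : ‖ζ ^ 2 + a‖ ≤ M := hM _ hζ
    have h2 : ‖ζ‖ ^ 2 ≤ M + ‖a‖ := by
      have h3 := norm_sub_le (ζ ^ 2 + a) a
      rw [add_sub_cancel_right, norm_pow] at h3
      linarith
    nlinarith [norm_nonneg ζ, sq_nonneg (‖ζ‖ - 1)]
  -- the right half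
  set H : Set ℂ := {ζ : ℂ | 0 < ζ.re} with hH
  have hHo : IsOpen H := isOpen_lt continuous_const Complex.continuous_re
  have hinj : InjOn q H := by
    intro x hx y hy hxy
    have h1 : x ^ 2 = y ^ 2 := by
      have : x ^ 2 + a = y ^ 2 + a := hxy
      exact add_right_cancel this
    rcases sq_eq_sq_iff_eq_or_eq_neg.mp h1 with h | h
    · exact h
    · have h2 : x.re = -y.re := by rw [h]; simp
      have h3 : 0 < x.re := hx
      have h4 : 0 < y.re := hy
      linarith
  have hqd : Differentiable ℂ q := by rw [hq]; fun_prop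
  have hSH : MeasurableSet (S ∩ H) := hSm.inter hHo.measurableSet
  have hcv := Pool.Agent.Helper859.Br.A2.cv hHo hqd.differentiableOn hinj hSH inter_subset_right
    (fun _ => 1)
  simp only [lintegral_const, Measure.restrict_apply MeasurableSet.univ, univ_inter, one_mul,
    mul_one] at hcv
  have hder : ∀ z, deriv q z = 2 * z := by
    intro z
    have h1 : HasDerivAt q (2 * z) z := by
      have h2 := (hasDerivAt_pow 2 z).add_const a
      refine h2.congr_deriv ?_
      norm_num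
    exact h1.deriv
  simp only [hder] at hcv
  have himg : q '' (S ∩ H) ⊆ E := by
    rintro _ ⟨z, hz, rfl⟩
    exact hz.1
  have hEfin : volume E ≠ ⊤ := hE.measure_lt_top.ne
  have h1 : ∫ z in S ∩ H, ‖2 * z‖ ^ 2 ≤ (volume E).toReal := by
    rw [integral_eq_lintegral_of_nonneg_ae (Filter.Eventually.of_forall fun z => by positivity)
      (by fun_prop : Continuous fun z : ℂ => ‖2 * z‖ ^ 2).aestronglyMeasurable.restrict, ← hcv]
    exact ENNReal.toReal_mono hEfin (measure_mono himg)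
  -- the symmetry
  have hneg : ∀ z : ℂ, -z ∈ S ↔ z ∈ S := by
    intro z
    simp only [hS, mem_ofPred_eq, neg_sq]
  set H' : Set ℂ := {ζ : ℂ | ζ.re < 0} with hH'
  have hH'o : IsOpen H' := isOpen_lt Complex.continuous_re continuous_const
  have hmap : ∀ f : ℂ → ℝ, (∀ z, f (-z) = f z) → ∫ z in S ∩ H', f z = ∫ z in S ∩ H, f z := by
    intro f hf
    have h2 := (Measure.measurePreserving_neg (volume : Measure ℂ)).setIntegral_preimage_emb
      (MeasurableEquiv.neg ℂ).measurableEmbedding f (S ∩ H)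
    have h3 : (fun z : ℂ => -z) ⁻¹' (S ∩ H) = S ∩ H' := by
      ext z
      simp only [mem_preimage, mem_inter_iff, hneg, hH, hH', mem_ofPred_eq, Complex.neg_re,
        Left.neg_pos_iff]
    have h4 : ∫ z in (fun z : ℂ => -z) ⁻¹' (S ∩ H), f (-z) = ∫ z in S ∩ H, f z := h2
    rw [h3] at h4
    simp only [hf] at h4
    exact h4
  have hnull : volume {ζ : ℂ | ζ.re = 0} = 0 := by
    have h2 : {ζ : ℂ | ζ.re = 0} ⊆ (Complex.slitPlane)ᶜ ∪ (Complex.slitPlane)ᶜ ∪ {ζ : ℂ | ζ.re = 0} := by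
      intro z hz; exact Or.inr hz
    have h3 : {ζ : ℂ | ζ.re = 0} = ((LinearMap.ker (Complex.reLm : ℂ →ₗ[ℝ] ℝ) : Submodule ℝ ℂ) :
        Set ℂ) := by
      ext z
      simp [LinearMap.mem_ker]
    rw [h3]
    apply Measure.addHaar_submodule
    intro htop
    have h4 : (1 : ℂ) ∈ LinearMap.ker (Complex.reLm : ℂ →ₗ[ℝ] ℝ) := by rw [htop]; trivial
    rw [LinearMap.mem_ker] at h4
    simp at h4
  have hsplit : ∀ f : ℂ → ℝ, IntegrableOn f S → ∫ z in S, f z =
      (∫ z in S ∩ H, f z) + ∫ z in S ∩ H', f z := by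
    intro f hf
    have h2 : (S : Set ℂ) =ᵐ[volume] ((S ∩ H) ∪ (S ∩ H') : Set ℂ) := by
      have h3 : ∀ᵐ z : ℂ, z ∉ {ζ : ℂ | ζ.re = 0} := by
        rw [ae_iff]
        simpa using hnull
      filter_upwards [h3] with z hz
      have h4 : (z ∈ S) = (z ∈ (S ∩ H) ∪ (S ∩ H')) := by
        apply propext
        constructor
        · intro hzS
          rcases lt_trichotomy z.re 0 with h | h | h
          · exact Or.inr ⟨hzS, h⟩
          · exact absurd h hz
          · exact Or.inl ⟨hzS, h⟩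
        · rintro (h | h)
          · exact h.1
          · exact h.1
      exact h4
    rw [setIntegral_congr_set h2]
    rw [setIntegral_union]
    · rw [Set.disjoint_left]
      rintro z ⟨_, h3⟩ ⟨_, h4⟩
      have h3' : 0 < z.re := h3
      have h4' : z.re < 0 := h4
      linarith
    · exact hSm.inter hH'o.measurableSet
    · exact hf.mono_set inter_subset_left
    · exact hf.mono_set inter_subset_left
  have hint : IntegrableOn (fun z : ℂ => ‖z‖ ^ 2) S := by
    have h2 : IntegrableOn (fun z : ℂ => ‖z‖ ^ 2) (closure S) :=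
      (by fun_prop : Continuous fun z : ℂ => ‖z‖ ^ 2).continuousOn.integrableOn_compact
        hSb.isCompact_closure
    exact h2.mono_set subset_closure
  have h2 := hsplit (fun z => ‖z‖ ^ 2) hint
  rw [hmap (fun z => ‖z‖ ^ 2) (fun z => by simp only [norm_neg])] at h2
  have h3 : ∫ z in S ∩ H, ‖2 * z‖ ^ 2 = 4 * ∫ z in S ∩ H, ‖z‖ ^ 2 := by
    rw [← integral_const_mul]
    congr 1
    funext z
    rw [norm_mul, mul_pow]
    norm_num
  have h4 := moment_ge hSm hSb
  rw [div_le_iff₀ (by positivity)] at h4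
  rw [h3] at h1
  rw [h2] at h4
  nlinarith

end Pool.Agent.X151.MA
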