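import Mathlib
import Pool.Agent.H713R2.AR.T1
import Pool.Agent.H713R2.AR.LB
import Pool.Agent.H712R2.Par
import Pool.Agent.X151.MA.Sq

/-!
# Omitted points which move holomorphically
-/

set_option autoImplicit false

open Complex Topology Filter Metric MeasureTheory Set N62a1eb23 Polynomial

namespace Pool.Agent.X151.MA

open Pool.Agent.H713R2 Pool.Agent.H712R2 Pool.Agent.H713R2.AR

/-- A holomorphic square root of the map `y ↦ G y - a y`. -/
structure IsRt (ρ : ℝ) (g : ℂ → ℂ) (a : ℂ) (k : ℂ → ℂ) : Prop where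
  diff : DifferentiableOn ℂ k (ball 0 (√ρ))
  zero : k 0 = 1
  even : ∀ s, k (-s) = k s
  sq : ∀ s ∈ ball (0 : ℂ) (√ρ), k s ^ 2 = g (s ^ 2) - a * s ^ 2
  ne : ∀ s, k s ≠ 0

theorem sq_mem {ρ : ℝ} (hρ : 0 ≤ ρ) {s : ℂ} (hs : s ∈ ball (0 : ℂ) (√ρ)) :
    s ^ 2 ∈ ball (0 : ℂ) ρ := by
  rw [mem_ball_zero_iff] at hs ⊢
  rw [norm_pow]
  calc ‖s‖ ^ 2 < (√ρ) ^ 2 := pow_lt_pow_left₀ hs (norm_nonneg _) (by norm_num)
    _ = ρ := Real.sq_sqrt hρ

theorem exists_rt {ρ : ℝ} (hρ : 0 < ρ) {g : ℂ → ℂ} {a : ℂ} (hg : IsExt ρ g)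
    (ha : ∀ y ∈ ball (0 : ℂ) ρ, y ≠ 0 → y⁻¹ * g y ≠ a) : ∃ k, IsRt ρ g a k := by
  have hF : DifferentiableOn ℂ (fun y => g y - a * y) (ball 0 ρ) := hg.diff.sub (by fun_prop)
  have h0 : ∀ y ∈ ball (0 : ℂ) ρ, g y - a * y ≠ 0 := by
    intro y hy h
    by_cases hy0 : y = 0
    · rw [hy0, hg.zero] at h
      simp at h
    · apply ha y hy hy0
      have h1 : g y = a * y := by linear_combination h
      rw [h1]
      field_simp
  obtain ⟨l, hl1, hl2, hl3⟩ := Pool.Agent.H712R2.M.exists_log_ball hρ hF h0 0 (by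
    rw [Complex.exp_zero, hg.zero]; simp)
  refine ⟨fun s => Complex.exp (l (s ^ 2) / 2), ?_, ?_, ?_, ?_, fun s => Complex.exp_ne_zero _⟩
  · have h1 : DifferentiableOn ℂ (fun s : ℂ => l (s ^ 2)) (ball 0 (√ρ)) :=
      hl1.comp (by fun_prop) (fun s hs => sq_mem hρ.le hs)
    exact (h1.div_const 2).cexp
  · rw [show (0 : ℂ) ^ 2 = 0 by norm_num, hl2, zero_div, Complex.exp_zero]
  · intro s
    simp only [neg_sq]
  · intro s hs
    rw [← Complex.exp_nat_mul]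
    have h1 : ((2 : ℕ) : ℂ) * (l (s ^ 2) / 2) = l (s ^ 2) := by push_cast; ring
    rw [h1, hl3 _ (sq_mem hρ.le hs)]

theorem IsRt.isExt {ρ : ℝ} (hρ : 0 < ρ) {g : ℂ → ℂ} {a : ℂ} {k : ℂ → ℂ} (hg : IsExt ρ g)
    (h : IsRt ρ g a k) : IsExt (√ρ) k where
  diff := h.diff
  zero := h.zero
  inj := by
    intro x hx y hy hx0 hy0 heq
    have h1 : ∀ s ∈ ball (0 : ℂ) (√ρ), s ≠ 0 → (s⁻¹ * k s) ^ 2 = (s ^ 2)⁻¹ * g (s ^ 2) - a := by
      intro s hs hs0
      rw [mul_pow, h.sq s hs]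
      field_simp
    have h2 : (x ^ 2)⁻¹ * g (x ^ 2) = (y ^ 2)⁻¹ * g (y ^ 2) := by
      have h3 := h1 x hx hx0
      rw [heq, h1 y hy hy0] at h3
      linear_combination -h3
    have h3 := hg.inj _ (sq_mem hρ.le hx) _ (sq_mem hρ.le hy) (pow_ne_zero 2 hx0)
      (pow_ne_zero 2 hy0) h2
    rcases sq_eq_sq_iff_eq_or_eq_neg.mp h3 with h4 | h4
    · exact h4
    · exfalso
      rw [h4, h.even] at heq
      have h5 : (y⁻¹ * k y) * 2 = 0 := by
        rw [inv_neg] at heq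
        linear_combination -heq
      rcases mul_eq_zero.mp h5 with h6 | h6
      · rcases mul_eq_zero.mp h6 with h7 | h7
        · exact inv_ne_zero hy0 h7
        · exact h.ne y h7
      · norm_num at h6

theorem IsRt.pc_two {ρ : ℝ} (hρ : 0 < ρ) {g : ℂ → ℂ} {a : ℂ} {k : ℂ → ℂ} (hg : IsExt ρ g)
    (h : IsRt ρ g a k) (i : ℕ) :
    pc k 2 i = if 2 ∣ i then pc g 1 (i / 2) - (if i / 2 = 1 then a else 0) else 0 := by
  have hR : 0 < √ρ := Real.sqrt_pos.mpr hρ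
  have hD := hg.diff
  have h1 : tc (fun x => (fun y => g y - a * y) (x ^ 2)) i =
      if 2 ∣ i then tc (fun y => g y - a * y) (i / 2) else 0 :=
    tc_comp_pow (by norm_num) hR (Real.sq_sqrt hρ.le).le (hD.sub (by fun_prop)) i
  have h2 : pc k 2 i = tc (fun x => (fun y => g y - a * y) (x ^ 2)) i := by
    have h3 := tc_unique (a := pc k 2) (F := fun x => (fun y => g y - a * y) (x ^ 2)) hR ?_ ?_
    · rw [h3]
    · apply DifferentiableOn.comp (g := fun y => g y - a * y) (t := ball 0 ρ)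
      · exact hD.sub (by fun_prop)
      · fun_prop
      · intro x hx
        exact sq_mem hρ.le hx
    · filter_upwards [ball_mem_nhds (0 : ℂ) hR] with x hx
      have h4 := hasSum_tc (h.diff.pow 2) hx
      have h5 := h.sq x hx
      rw [← h5]
      exact h4
  rw [h2, h1]
  congr 1
  rw [tc_sub hρ hD (by fun_prop), tc_const_mul_id]
  congr 1
  simp only [pc, pow_one]

/-- The area inequality for an omitted point which moves holomorphically, at a finite level. -/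
theorem level_vol {n : ℕ} (hn : 2 ≤ n) {γ α : ℂ → ℂ} (hγ : DifferentiableOn ℂ γ (ball 0 1))
    (hγB : ∀ t ∈ ball (0 : ℂ) 1, Bd n (γ t)) (hα : DifferentiableOn ℂ α (ball 0 1)) {j : ℕ} {m : ℝ}
    (hm2 : 2 ≤ m) (hm3 : m < 3)
    (hαm : ∀ t ∈ ball (0 : ℂ) 1, ‖(fc n (γ t))^[j] (α t)‖ ≤ m) :
    ‖deriv α 0‖ ≤ 2 / Real.pi * (volume {ζ : ℂ | ζ ^ 2 + α 0 ∈ EE n (γ 0) j}).toReal := by
  obtain ⟨G, hG⟩ := exists_seq hn
  have h0 : (0 : ℂ) ∈ ball (0 : ℂ) 1 := mem_ball_self one_pos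
  have hm0 : 0 < m := by linarith
  have hpi := Real.pi_pos
  set ρ : ℝ := radM n m j with hρdef
  have hρ : 0 < ρ := radM_pos n hm0 j
  have hBdJ : ∀ t ∈ ball (0 : ℂ) 1, BdJ n m j (γ t) := fun t ht i _ _ =>
    ((hγB t ht) i).trans hm2
  have hext : ∀ t ∈ ball (0 : ℂ) 1, IsExt ρ (fun x => G j (γ t, x)) := fun t ht =>
    isExt_seqM hn hm0 hG j (hBdJ t ht)
  -- the point is omitted
  have homit : ∀ t ∈ ball (0 : ℂ) 1, ∀ y ∈ ball (0 : ℂ) ρ, y ≠ 0 →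
      y⁻¹ * G j (γ t, y) ≠ α t := by
    intro t ht y hy hy0 heq
    have h1 := (hG.isG j).conj (γ t) y (mem_AA_of_BdJ hn hm0 (hBdJ t ht) hy) hy0
    rw [heq] at h1
    have h2 := hαm t ht
    rw [h1, norm_pow, norm_inv, inv_pow] at h2
    have h3 : ‖y‖ ^ (n ^ j) < 1 / m := by
      rw [← radM_pow hn hm0 j]
      exact pow_lt_pow_left₀ (mem_ball_zero_iff.mp hy) (norm_nonneg _) (pow_ne_zero _ (by omega))
    have h4 : 0 < ‖y‖ ^ (n ^ j) := by have := norm_pos_iff.mpr hy0; positivity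
    have h5 : m < (‖y‖ ^ (n ^ j))⁻¹ := by
      rw [lt_inv_comm₀ hm0 h4, ← one_div]
      exact h3
    linarith
  choose! k hk using fun t ht => exists_rt hρ (hext t ht) (homit t ht)
  have hkext : ∀ t ∈ ball (0 : ℂ) 1, IsExt (√ρ) (k t) := fun t ht => (hk t ht).isExt hρ (hext t ht)
  have hR : 0 < √ρ := Real.sqrt_pos.mpr hρ
  have hps : ∀ t ∈ ball (0 : ℂ) 1, PowSeq (pc (k t)) := fun t ht =>
    powSeq_pc hR (hkext t ht).diff (hkext t ht).zero
  have hholo : ∀ p i, DifferentiableOn ℂ (fun t => pc (k t) p i) (ball 0 1) := by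
    intro p i
    refine powSeq_diff hps (d := 2) (by norm_num) ?_ i p
    intro i
    refine DifferentiableOn.congr ?_ (fun t ht => (hk t ht).pc_two hρ (hext t ht) i)
    by_cases hdk : 2 ∣ i
    · simp only [if_pos hdk]
      apply (pc_holo hn hG hγ hγB j 1 _).sub
      by_cases hk1 : i / 2 = 1
      · simp only [if_pos hk1]; exact hα
      · simp only [if_neg hk1]; exact differentiableOn_const _
    · simp only [if_neg hdk]; exact differentiableOn_const _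
  -- the first coefficients
  have hc1 : ∀ t ∈ ball (0 : ℂ) 1, pc (k t) 1 1 = 0 := by
    intro t ht
    have h1 := (hps t ht).low (k := 1) le_rfl (fun i hi hi' => by omega) 2
    rw [(hk t ht).pc_two hρ (hext t ht), if_neg (by norm_num)] at h1
    have h2 : (2 : ℂ) ≠ 0 := two_ne_zero
    have h3 : ((2 : ℕ) : ℂ) * pc (k t) 1 1 = 0 := h1.symm
    push_cast at h3
    exact (mul_eq_zero.mp h3).resolve_left h2
  have hc2 : ∀ t ∈ ball (0 : ℂ) 1, pc (k t) 1 2 = -α t / 2 := by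
    intro t ht
    have h1 := (hps t ht).low (k := 2) (by norm_num) (fun i hi hi' => by
      obtain rfl : i = 1 := by omega
      exact hc1 t ht) 2
    rw [(hk t ht).pc_two hρ (hext t ht), if_pos (by norm_num), show 2 / 2 = 1 from rfl, if_pos rfl,
      pc_one hn hG j (hγB t ht) 1 le_rfl (by omega)] at h1
    push_cast at h1
    linear_combination -h1 / 2
  have hhb : ∀ t ∈ ball (0 : ℂ) 1, hb (pc (k t)) (0 + 1) (0 + 1 + 1) = -α t / 2 := by
    intro t ht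
    have h1 : hb (pc (k t)) 1 2 = -α t / 2 := by
      rw [hb_eq, Fin.sum_univ_one]
      simp only [Fin.coe_ofNat_eq_mod, Nat.zero_mod, Nat.sub_zero]
      rw [if_pos (by norm_num), hc1 t ht, hc2 t ht]
      ring
    exact h1
  have hder : deriv (fun t => hb (pc (k t)) (0 + 1) (0 + 1 + 1)) 0 = -deriv α 0 / 2 := by
    have h1 : (fun t => hb (pc (k t)) (0 + 1) (0 + 1 + 1)) =ᶠ[𝓝 0] fun t => -α t / 2 := by
      filter_upwards [isOpen_ball.mem_nhds h0] with t ht using hhb t ht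
    rw [h1.deriv_eq]
    have h2 : HasDerivAt α (deriv α 0) 0 :=
      (hα.differentiableAt (isOpen_ball.mem_nhds h0)).hasDerivAt
    exact (h2.neg.div_const 2).deriv
  -- the level
  have hρ3 : radM n 3 j < ρ := radM_lt hn hm0 hm3 j
  have hρ3' : 0 < radM n 3 j := radM_pos n (by norm_num) j
  have hmain := family_ineq (R := √ρ) (ρ := √(radM n 3 j)) (Real.sqrt_pos.mpr hρ3')
    (Real.sqrt_lt_sqrt hρ3'.le hρ3) (g := k) hkext hholo 0 (m := 1) le_rfl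
  rw [hder] at hmain
  have hFb : Fb (pc (k 0)) 1 = X := by
    rw [Fb_eq, Fin.sum_univ_one]
    simp only [Fin.coe_ofNat_eq_mod, Nat.zero_mod, Nat.sub_zero]
    rw [hc1 0 h0]
    simp
  have hint : (∫ z in (UU (k 0) (√(radM n 3 j)))ᶜ,
      ‖(derivative (Fb (pc (k 0)) 1)).eval z‖ ^ 2) = (volume (UU (k 0) (√(radM n 3 j)))ᶜ).toReal := by
    rw [hFb]
    simp [Measure.real]
  rw [hint] at hmain
  -- the complement of the image
  have hsub : (UU (k 0) (√(radM n 3 j)))ᶜ ⊆ {ζ : ℂ | ζ ^ 2 + α 0 ∈ EE n (γ 0) j} := by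
    intro ζ hζ
    by_contra hcon
    have h1 : ζ ^ 2 + α 0 ∉ (UU (fun x => G j (γ 0, x)) (rho n j))ᶜ := fun h =>
      hcon (compl_UU_subset hn hG j (hγB 0 h0) h)
    rw [Set.notMem_compl_iff] at h1
    obtain ⟨y, ⟨hy0, hy⟩, hy2⟩ := h1
    simp only at hy2
    obtain ⟨s, hs⟩ := IsAlgClosed.exists_pow_nat_eq y (show 0 < 2 by norm_num)
    have hs0 : s ≠ 0 := by
      rintro rfl
      rw [zero_pow (by norm_num)] at hs
      exact hy0 hs.symm
    have hsn : ‖s‖ < √(radM n 3 j) := by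
      apply Real.lt_sqrt_of_sq_lt
      rw [← norm_pow, hs]
      exact hy
    have hsn' : s ∈ ball (0 : ℂ) (√ρ) := by
      rw [mem_ball_zero_iff]
      exact hsn.trans (Real.sqrt_lt_sqrt hρ3'.le hρ3)
    have h2 : (s⁻¹ * k 0 s) ^ 2 = ζ ^ 2 := by
      rw [mul_pow, (hk 0 h0).sq s hsn', hs]
      have h3 : ζ ^ 2 = y⁻¹ * G j (γ 0, y) - α 0 := by rw [hy2]; ring
      rw [h3, inv_pow, hs]
      field_simp
    rcases sq_eq_sq_iff_eq_or_eq_neg.mp h2 with h3 | h3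
    · exact hζ ⟨s, ⟨hs0, hsn⟩, h3⟩
    · refine hζ ⟨-s, ⟨neg_ne_zero.mpr hs0, by rw [norm_neg]; exact hsn⟩, ?_⟩
      simp only
      rw [(hk 0 h0).even, inv_neg, neg_mul, h3, neg_neg]
  have hc2' : ‖γ 0‖ ≤ 2 := by have := hγB 0 h0 1; rwa [P_one hn] at this
  have hEc := isCompact_EE hn hc2' j
  have hfin : volume {ζ : ℂ | ζ ^ 2 + α 0 ∈ EE n (γ 0) j} ≠ ⊤ := by
    have hb : Bornology.IsBounded {ζ : ℂ | ζ ^ 2 + α 0 ∈ EE n (γ 0) j} := by
      obtain ⟨M, hM⟩ := hEc.isBounded.exists_norm_le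
      rw [isBounded_iff_forall_norm_le]
      refine ⟨1 + M + ‖α 0‖, fun ζ hζ => ?_⟩
      have h1 : ‖ζ ^ 2 + α 0‖ ≤ M := hM _ hζ
      have h2 : ‖ζ‖ ^ 2 ≤ M + ‖α 0‖ := by
        have h3 := norm_sub_le (ζ ^ 2 + α 0) (α 0)
        rw [add_sub_cancel_right, norm_pow] at h3
        linarith
      nlinarith [norm_nonneg ζ, sq_nonneg (‖ζ‖ - 1)]
    exact hb.measure_lt_top.ne
  set U : ℝ := (volume (UU (k 0) (√(radM n 3 j)))ᶜ).toReal with hU
  have hU0 : 0 ≤ U := ENNReal.toReal_nonneg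
  have hUle : U ≤ (volume {ζ : ℂ | ζ ^ 2 + α 0 ∈ EE n (γ 0) j}).toReal :=
    ENNReal.toReal_mono hfin (measure_mono hsub)
  have hn1 : ‖-deriv α 0 / 2‖ = ‖deriv α 0‖ / 2 := by
    rw [norm_div, norm_neg]
    simp
  rw [hn1] at hmain
  push_cast at hmain
  rw [one_mul] at hmain
  have h1 : (‖deriv α 0‖ / 2) ^ 2 ≤ (1 / Real.pi * U) ^ 2 := by
    refine hmain.trans (le_of_eq ?_)
    ring
  have h2 : ‖deriv α 0‖ / 2 ≤ 1 / Real.pi * U :=
    le_of_sq_le_sq h1 (by positivity)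
  have h3 : 1 / Real.pi * U ≤ 1 / Real.pi *
      (volume {ζ : ℂ | ζ ^ 2 + α 0 ∈ EE n (γ 0) j}).toReal :=
    mul_le_mul_of_nonneg_left hUle (by positivity)
  have h4 : 2 / Real.pi * (volume {ζ : ℂ | ζ ^ 2 + α 0 ∈ EE n (γ 0) j}).toReal =
      2 * (1 / Real.pi * (volume {ζ : ℂ | ζ ^ 2 + α 0 ∈ EE n (γ 0) j}).toReal) := by ring
  rw [h4]
  linarith

/-- The area inequality for an omitted point which moves holomorphically, at a finite level. -/
theorem level_point {n : ℕ} (hn : 2 ≤ n) {γ α : ℂ → ℂ} (hγ : DifferentiableOn ℂ γ (ball 0 1))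
    (hγB : ∀ t ∈ ball (0 : ℂ) 1, Bd n (γ t)) (hα : DifferentiableOn ℂ α (ball 0 1)) {j : ℕ} {m : ℝ}
    (hm2 : 2 ≤ m) (hm3 : m < 3)
    (hαm : ∀ t ∈ ball (0 : ℂ) 1, ‖(fc n (γ t))^[j] (α t)‖ ≤ m) :
    ‖deriv α 0‖ ≤ 2 * √((volume (EE n (γ 0) j)).toReal / Real.pi) := by
  have h0 : (0 : ℂ) ∈ ball (0 : ℂ) 1 := mem_ball_self one_pos
  have hpi := Real.pi_pos
  have hc2' : ‖γ 0‖ ≤ 2 := by have := hγB 0 h0 1; rwa [P_one hn] at this
  have hmain := level_vol hn hγ hγB hα hm2 hm3 hαm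
  have hA := sq_area (isCompact_EE hn hc2' j) (α 0)
  set U : ℝ := (volume {ζ : ℂ | ζ ^ 2 + α 0 ∈ EE n (γ 0) j}).toReal with hU
  set A : ℝ := (volume (EE n (γ 0) j)).toReal with hAdef
  have h1 : (1 / Real.pi * U) ^ 2 ≤ A / Real.pi := by
    have h2 : (1 / Real.pi * U) ^ 2 = U ^ 2 / Real.pi ^ 2 := by
      field_simp
    rw [h2, div_le_div_iff₀ (by positivity) hpi]
    nlinarith
  have h2 := Real.le_sqrt_of_sq_le h1
  have h3 : 2 / Real.pi * U = 2 * (1 / Real.pi * U) := by ring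
  rw [h3] at hmain
  linarith

end Pool.Agent.X151.MA
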