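import Mathlib
import Pool.Agent.X151.MA.Root
import Pool.Agent.X151.MU.Six

/-!
# The velocities are bounded by the square root of the area of the filled Julia set
-/

set_option autoImplicit false

open Complex Topology Filter Metric MeasureTheory Set N62a1eb23

namespace Pool.Agent.X151.MA

open Pool.Agent.H713R2 Pool.Agent.H712R2 Pool.Agent.H713R2.AR
open Pool.Agent.W746.LD (orb S hasDerivAt_orb orb_succ orb_zero P_eq_orb)
open Pool.Agent.TH363.QI (D)
open Pool.Agent.X151.MU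

variable {n : ℕ}

/-- Decay of the sum far from the origin. -/
theorem S_far (hn : 2 ≤ n) {c : ℂ} (hc : ‖c‖ ≤ 2) {z : ℂ} (hz : 3 ≤ ‖z‖) (j : ℕ) :
    ‖1 - S n c z (j + 1)‖ ≤ 2 / ‖z‖ := by
  have hz0 : 0 < ‖z‖ := by linarith
  have h3 : 0 < 1 / ‖z‖ := by positivity
  have hP : ∀ k, ‖(Pool.Agent.W746.LD.P n c z (k + 1))⁻¹‖ ≤ (1 / 6 : ℝ) ^ k * (1 / ‖z‖) := by
    intro k
    induction k with
    | zero =>
      rw [Pool.Agent.W746.LD.P_succ, Pool.Agent.W746.LD.P_zero, one_mul, orb_zero, norm_inv,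
        norm_mul, norm_pow, Complex.norm_natCast, pow_zero, one_mul, one_div]
      apply inv_anti₀ hz0
      have h1 : (2 : ℝ) ≤ n := by exact_mod_cast hn
      have h2 : ‖z‖ ≤ ‖z‖ ^ (n - 1) := by
        calc ‖z‖ = ‖z‖ ^ 1 := (pow_one _).symm
          _ ≤ _ := pow_le_pow_right₀ (by linarith) (by omega)
      nlinarith
    | succ k ih =>
      refine (P_step hn (orb_big hn hc hz (k + 1))).trans ?_
      rw [pow_succ]
      linarith
  have hS : ∀ j, ‖1 - S n c z (j + 1)‖ ≤ (6 / 5 * (1 - (1 / 6 : ℝ) ^ j)) * (1 / ‖z‖) := by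
    intro j
    induction j with
    | zero =>
      rw [zero_add, Pool.Agent.W746.LD.S_one, sub_self, norm_zero, pow_zero]
      simp
    | succ j ih =>
      rw [Pool.Agent.W746.LD.S_succ z (j + 1)]
      have h1 : (1 : ℂ) - (S n c z (j + 1) + (Pool.Agent.W746.LD.P n c z (j + 1))⁻¹) =
          (1 - S n c z (j + 1)) - (Pool.Agent.W746.LD.P n c z (j + 1))⁻¹ := by ring
      rw [h1]
      refine (norm_sub_le _ _).trans ?_
      have h2 := hP j
      have h5 : (6 / 5 * (1 - (1 / 6 : ℝ) ^ (j + 1))) * (1 / ‖z‖) =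
          (6 / 5 * (1 - (1 / 6 : ℝ) ^ j)) * (1 / ‖z‖) + (1 / 6 : ℝ) ^ j * (1 / ‖z‖) := by
        rw [pow_succ]; ring
      rw [h5]
      exact add_le_add ih h2
  refine (hS j).trans ?_
  have h4 : 0 < (1 / 6 : ℝ) ^ j := by positivity
  rw [div_eq_mul_one_div 2]
  nlinarith

/-- The maximum principle in the exterior of a level set. -/
theorem max_principle (hn : 2 ≤ n) {c : ℂ} (hcM : c ∈ multibrotSet n) {j : ℕ} {B : ℝ}
    (hB : ∀ z : ℂ, ‖orb n c z j‖ = 5 / 2 → ‖1 - S n c z (j + 1)‖ ≤ B) {z : ℂ}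
    (hz : 5 / 2 ≤ ‖orb n c z j‖) : ‖1 - S n c z (j + 1)‖ ≤ B := by
  obtain ⟨G, hG⟩ := exists_seq hn
  have hBd : Bd n c := (mem_multibrot_iff hn c).mp hcM
  have hc2 : ‖c‖ ≤ 2 := norm_le_two_of_sub hn hcM
  set ψ : ℂ → ℂ := fun x => x⁻¹ * G j (c, x) with hψ
  set Φ : ℂ → ℂ := fun x => if x = 0 then 0 else 1 - S n c (ψ x) (j + 1) with hΦ
  set ρ : ℝ := radM n (5 / 2) j with hρdef
  have hρ : 0 < ρ := radM_pos n (by norm_num) j
  have hρ2 : ρ < rad n j := radM_lt hn (by norm_num) (by norm_num) j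
  have hrad : 0 < rad n j := rad_pos n j
  have hconj : ∀ x ∈ ball (0 : ℂ) (rad n j), x ≠ 0 → ‖orb n c (ψ x) j‖ * ‖x‖ ^ (n ^ j) = 1 := by
    intro x hx hx0
    have h1 := (hG.isG j).conj c x (mem_AA_of_Bd hn hBd hx) hx0
    rw [fc_iter_eq] at h1
    simp only [hψ]
    rw [h1, norm_pow, norm_inv, ← mul_pow, inv_mul_cancel₀ (norm_ne_zero_iff.mpr hx0), one_pow]
  have hbig : ∀ x ∈ ball (0 : ℂ) (rad n j), x ≠ 0 → 2 < ‖orb n c (ψ x) j‖ := by
    intro x hx hx0
    have h1 := hconj x hx hx0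
    have h2 : ‖x‖ ^ (n ^ j) < 1 / 2 := by
      rw [← rad_pow hn j]
      exact pow_lt_pow_left₀ (mem_ball_zero_iff.mp hx) (norm_nonneg _) (pow_ne_zero _ (by omega))
    by_contra hcon
    rw [not_lt] at hcon
    have h3 : 0 ≤ ‖x‖ ^ (n ^ j) := by positivity
    have h4 := norm_nonneg (orb n c (ψ x) j)
    nlinarith
  have hGd : DifferentiableOn ℂ (fun x => G j (c, x)) (ball 0 (rad n j)) := (isExt_seq hn hG j hBd).diff
  -- differentiability off the origin
  have hd0 : ∀ x ∈ ball (0 : ℂ) (rad n j), x ≠ 0 → DifferentiableAt ℂ Φ x := by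
    intro x hx hx0
    have h1 : DifferentiableAt ℂ ψ x :=
      (differentiableAt_inv hx0).mul (hGd.differentiableAt (isOpen_ball.mem_nhds hx))
    have h2 : DifferentiableAt ℂ (fun z => S n c z (j + 1)) (ψ x) :=
      Pool.Agent.W746.LD.differentiableAt_S (j + 1) fun i hi =>
        Pool.Agent.W746.LD.P_ne_zero hn fun m hm =>
          orb_ne_of_big hn hcM (hbig x hx hx0) m (by omega)
    have h3 : DifferentiableAt ℂ (fun x => 1 - S n c (ψ x) (j + 1)) x :=
      (differentiableAt_const 1).sub (h2.comp x h1)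
    refine h3.congr_of_eventuallyEq ?_
    filter_upwards [isOpen_ne.mem_nhds hx0] with y hy
    simp only [hΦ]
    rw [if_neg hy]
  -- continuity at the origin
  have hcont : ContinuousAt Φ 0 := by
    have hG0 : Tendsto (fun x => G j (c, x)) (𝓝[≠] 0) (𝓝 1) := by
      have h1 : ContinuousAt (fun x => G j (c, x)) 0 :=
        (hGd.differentiableAt (isOpen_ball.mem_nhds (mem_ball_self hrad))).continuousAt
      have h2 := h1.tendsto
      rw [(hG.isG j).zero c] at h2
      exact h2.mono_left nhdsWithin_le_nhds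
    have hψt : Tendsto (fun x => ‖ψ x‖) (𝓝[≠] 0) atTop := by
      have h1 : Tendsto (fun x : ℂ => ‖x⁻¹‖) (𝓝[≠] 0) atTop := by
        have := tendsto_norm_cobounded_atTop.comp (tendsto_inv₀_nhdsNE_zero (α := ℂ))
        exact this
      have h2 : Tendsto (fun x => ‖x⁻¹‖ * ‖G j (c, x)‖) (𝓝[≠] 0) atTop := by
        apply h1.atTop_mul_pos (C := 1) one_pos
        have := hG0.norm
        rwa [norm_one] at this
      refine h2.congr fun x => ?_
      simp only [hψ, norm_mul]
    rw [continuousAt_iff_punctured_nhds]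
    have hΦ0 : Φ 0 = 0 := by simp [hΦ]
    rw [hΦ0, tendsto_zero_iff_norm_tendsto_zero]
    have h1 : Tendsto (fun x => 2 / ‖ψ x‖) (𝓝[≠] 0) (𝓝 0) := hψt.const_div_atTop 2
    refine squeeze_zero' (Filter.Eventually.of_forall fun _ => norm_nonneg _) ?_ h1
    filter_upwards [hψt.eventually (eventually_ge_atTop 3), self_mem_nhdsWithin] with x hx hx0
    simp only [hΦ]
    have hx0' : x ≠ 0 := hx0
    rw [if_neg hx0']
    exact S_far hn hc2 hx j
  have hdiff : DifferentiableOn ℂ Φ (ball 0 (rad n j)) := by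
    intro x hx
    by_cases hx0 : x = 0
    · rw [hx0]
      apply DifferentiableAt.differentiableWithinAt
      apply AnalyticAt.differentiableAt
      apply Complex.analyticAt_of_differentiable_on_punctured_nhds_of_continuousAt _ hcont
      rw [eventually_nhdsWithin_iff]
      filter_upwards [ball_mem_nhds (0 : ℂ) hrad] with y hy hy0
      exact hd0 y hy hy0
    · exact (hd0 x hx hx0).differentiableWithinAt
  have hsub : closedBall (0 : ℂ) ρ ⊆ ball 0 (rad n j) := closedBall_subset_ball hρ2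
  have hdc : DiffContOnCl ℂ Φ (ball 0 ρ) := by
    apply DifferentiableOn.diffContOnCl
    rw [closure_ball (0 : ℂ) hρ.ne']
    exact hdiff.mono hsub
  have hfr : ∀ x ∈ frontier (ball (0 : ℂ) ρ), ‖Φ x‖ ≤ B := by
    intro x hx
    rw [frontier_ball (0 : ℂ) hρ.ne', mem_sphere_zero_iff_norm] at hx
    have hx0 : x ≠ 0 := by
      rintro rfl
      rw [norm_zero] at hx
      linarith
    have hxb : x ∈ ball (0 : ℂ) (rad n j) := by
      rw [mem_ball_zero_iff, hx]
      exact hρ2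
    simp only [hΦ]
    rw [if_neg hx0]
    apply hB
    have h1 := hconj x hxb hx0
    rw [hx, hρdef, radM_pow hn (by norm_num)] at h1
    linarith
  -- the point `z`
  have hz0 : z ≠ 0 := by
    rintro rfl
    have h1 := hBd j
    have h2 : Pool.Agent.H712R2.P n j c = orb n c 0 j := rfl
    rw [h2] at h1
    linarith
  have hoz : orb n c z j ≠ 0 := by
    intro h; rw [h, norm_zero] at hz; norm_num at hz
  obtain ⟨x, hx0, hxA, hx⟩ := (hG.isG j).surj c z hz0 hoz (fun i _ _ => by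
    have := hBd i
    have h2 : (fc n c)^[j] z = orb n c z j := rfl
    rw [h2]
    linarith)
  have hxρ : x ∈ closedBall (0 : ℂ) ρ := by
    rw [mem_closedBall_zero_iff]
    have h1 := (hG.isG j).conj c x hxA hx0
    rw [hx, fc_iter_eq] at h1
    have h2 : ‖orb n c z j‖ * ‖x‖ ^ (n ^ j) = 1 := by
      rw [h1, norm_pow, norm_inv, ← mul_pow, inv_mul_cancel₀ (norm_ne_zero_iff.mpr hx0), one_pow]
    rw [← pow_le_pow_iff_left₀ (norm_nonneg x) hρ.le (pow_ne_zero j (by omega : n ≠ 0)),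
      radM_pow hn (by norm_num)]
    have h3 : 0 ≤ ‖x‖ ^ (n ^ j) := by positivity
    rw [one_div, inv_div, le_div_iff₀ (by norm_num)]
    nlinarith
  have hfin := Complex.norm_le_of_forall_mem_frontier_norm_le isBounded_ball hdc hfr (z := x) (by
    rw [closure_ball (0 : ℂ) hρ.ne']
    exact hxρ)
  simp only [hΦ] at hfin
  rw [if_neg hx0] at hfin
  have h5 : ψ x = z := hx
  rwa [h5] at hfin

/-- The area of the level sets tends to the area of the filled Julia set. -/
theorem tendsto_area (hn : 2 ≤ n) {c : ℂ} (hc : ‖c‖ ≤ 2) :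
    Tendsto (fun j => (volume (EE n c j)).toReal) atTop (𝓝 (volume (KK n c)).toReal) := by
  have h1 : Tendsto (fun j => volume (EE n c j)) atTop (𝓝 (volume (⋂ j, EE n c j))) :=
    tendsto_measure_iInter_atTop
      (fun j => (isCompact_EE hn hc j).isClosed.measurableSet.nullMeasurableSet) (EE_anti hn hc)
      ⟨0, (isCompact_EE hn hc 0).measure_lt_top.ne⟩
  rw [iInter_EE hn hc] at h1
  have h2 : volume {z : ℂ | ¬ Tendsto (fun k => (fun z => z ^ n + c)^[k] z) atTop
      (Bornology.cobounded ℂ)} ≠ ⊤ := by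
    have h3 : {z : ℂ | ¬ Tendsto (fun k => (fun z => z ^ n + c)^[k] z) atTop
      (Bornology.cobounded ℂ)} ⊆ EE n c 0 := by
      rw [← iInter_EE hn hc]
      exact iInter_subset _ 0
    exact ((measure_mono h3).trans_lt (isCompact_EE hn hc 0).measure_lt_top).ne
  exact (ENNReal.tendsto_toReal h2).comp h1

theorem scaled_ball {c : ℂ} {r : ℝ} (hr : 0 < r) {t : ℂ} (ht : t ∈ ball (0 : ℂ) 1) :
    c + r * t ∈ ball c r := by
  rw [mem_ball_zero_iff] at ht
  rw [mem_ball_iff_norm, add_sub_cancel_left, norm_mul, Complex.norm_real, Real.norm_eq_abs,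
    abs_of_pos hr]
  nlinarith

/-- A moving point with bounded orbit at level `j`, over a ball. -/
theorem ball_point (hn : 2 ≤ n) {c : ℂ} {r : ℝ} (hr : 0 < r)
    (hsub : ball c r ⊆ multibrotSet n) {j : ℕ} {m : ℝ} (hm2 : 2 ≤ m) (hm3 : m < 3)
    {x : ℂ → ℂ} {x' : ℂ} (hx : DifferentiableOn ℂ x (ball c r)) (hx' : HasDerivAt x x' c)
    (hxm : ∀ t ∈ ball c r, ‖orb n t (x t) j‖ ≤ m) :
    r * ‖x'‖ ≤ 2 * √((volume (EE n c j)).toReal / Real.pi) := by
  have hγ : Differentiable ℂ fun t : ℂ => c + r * t := by fun_prop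
  have h1 := level_point hn (γ := fun t => c + r * t) (α := fun t => x (c + r * t)) (j := j)
    hγ.differentiableOn (fun t ht => (mem_multibrot_iff hn _).mp (hsub (scaled_ball hr ht)))
    (hx.comp hγ.differentiableOn fun t ht => scaled_ball hr ht) hm2 hm3
    (fun t ht => hxm _ (scaled_ball hr ht))
  have h2 : deriv (fun t : ℂ => x (c + r * t)) 0 = x' * r := by
    have h3 : HasDerivAt x x' (c + (r : ℂ) * 0) := by rw [mul_zero, add_zero]; exact hx'
    have h4 : HasDerivAt (fun t : ℂ => c + (r : ℂ) * t) r 0 := by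
      simpa using ((hasDerivAt_id (0 : ℂ)).const_mul (r : ℂ)).const_add c
    exact (h3.comp (0 : ℂ) h4).deriv
  rw [h2, norm_mul, Complex.norm_real, Real.norm_eq_abs, abs_of_pos hr, mul_zero, add_zero,
    mul_comm] at h1
  exact h1

/-- The iterates of the critical value. -/
theorem crit_area (hn : 2 ≤ n) {c : ℂ} {r : ℝ} (hr : 0 < r)
    (hsub : ball c r ⊆ multibrotSet n) (N : ℕ) :
    r * ‖D n c N‖ ≤ 2 * √((volume (KK n c)).toReal / Real.pi) := by
  have hc2 : ‖c‖ ≤ 2 := norm_le_two_of_sub hn (hsub (mem_ball_self hr))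
  have h1 := ((((tendsto_area hn hc2).div_const Real.pi)).sqrt).const_mul 2
  refine ge_of_tendsto' h1 fun j => ?_
  refine ball_point hn hr hsub (m := 2) le_rfl (by norm_num)
    (Pool.Agent.W746.LD.diff_param N).differentiableOn
    (Pool.Agent.TH363.QI.hasDerivAt_D n c N) ?_
  intro t ht
  rw [← Pool.Agent.W746.LD.orb_add]
  exact Pool.Agent.W746.LD.mem_multibrot_orb hn (hsub ht) _

/-- The escaping points. -/
theorem esc_area (hn : 2 ≤ n) {c : ℂ} {r : ℝ} (hr : 0 < r)
    (hsub : ball c r ⊆ multibrotSet n) {b : ℂ} (hb : Esc n c b) :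
    r * ‖V n c b‖ ≤ 2 * √((volume (KK n c)).toReal / Real.pi) := by
  have hcM : c ∈ multibrotSet n := hsub (mem_ball_self hr)
  have hc2 : ‖c‖ ≤ 2 := norm_le_two_of_sub hn hcM
  have h1 := ((((tendsto_area hn hc2).div_const Real.pi)).sqrt).const_mul 2
  have h2 : Tendsto (fun j => r * ‖1 - S n c b (j + 1)‖) atTop (𝓝 (r * ‖V n c b‖)) :=
    (((tendsto_S hn hb).const_sub 1).norm).const_mul r
  refine le_of_tendsto_of_tendsto h2 h1 ?_
  filter_upwards [eventually_big hb (5 / 2)] with j hj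
  have h3 : ‖1 - S n c b (j + 1)‖ ≤ 2 * √((volume (EE n c j)).toReal / Real.pi) / r := by
    refine max_principle hn hcM ?_ hj.le
    intro z hz
    rw [le_div_iff₀ hr, mul_comm]
    obtain ⟨B, hB⟩ := exists_motion hn hr hsub j
    have hz2 : 2 < ‖orb n c z j‖ := by rw [hz]; norm_num
    obtain ⟨e1, e2, e3, -⟩ := hB z hz2
    refine ball_point hn hr hsub (m := 5 / 2) (by norm_num) (by norm_num) e1
      (deriv_motion hn hr hsub hz2 e1 e2 e3) ?_
    intro t ht
    rw [e3 t ht, hz]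
  rw [le_div_iff₀ hr, mul_comm] at h3
  exact h3

/-- The periodic points. -/
theorem per_area (hn : 2 ≤ n) {c : ℂ} {r : ℝ} (hr : 0 < r)
    (hno : ∀ t ∈ ball c r, ¬ ∃ m z, IsAttractingCycle (fun z => z ^ n + t) m z)
    (hcM : c ∈ multibrotSet n) {x v : ℂ} (h : Pe n c x v) :
    r * ‖v‖ ≤ 2 * √((volume (KK n c)).toReal / Real.pi) := by
  obtain ⟨p, hp, h1, rfl⟩ := h
  obtain ⟨b, hb1, hb2, hb3, hb4⟩ := tendsto_V hn hr hno hcM hp h1
  exact le_of_tendsto' ((hb4.norm).const_mul r) fun k =>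
    esc_area hn hr (ball_subset hn hr hcM hno) (hb1 k)

end Pool.Agent.X151.MA
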